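import Pool.Agent.Helper84.TU.B

/-!
# Project TU, block TU4: a decreasing sequence dominating a sequence with summable traces

PROOF. `Z K N = ∑ n ∈ Finset.Ico K (K + N), z n`, `A K N = Z (1 + Z)⁻¹ = 1 - (1 + Z)⁻¹`. The inverse of `1 + op Z` exists (positive, `≥ 1`), it commutes with everything commuting with `Z`, so it is in `groupVN G` (`mem_groupVN`). `A K N` increases with `N` (and
decreases with `K`, comparing `Z (K+1) N ≤ Z K (N+1)`): inverses of positive invertible operators are antitone (Mathlib: `CStarAlgebra.inv_le_inv` or `CFC` order lemmas in `Mathlib/Analysis/CStarAlgebra/ContinuousFunctionalCalculus/Order.lean`), `0 ≤ A K N ≤ 1`, `A K N ≤ Z K N`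
(`t/(1+t) ≤ t`). `A K = sup_N A K N` (`exists_sup`), `tr (A K) = lim tr (A K N) ≤ ∑_{n ≥ K} tr (z n) → 0` (`tendsto_tr`, `Le.tr`, `tendsto_sum_nat_add`). `z K ≤ Z K N` (`N ≥ 1`) gives `z K (1 + z K)⁻¹ ≤ A K N ≤ A K` and
`z K ≤ (1 + C) z K (1 + z K)⁻¹` because `z K ≤ C` (functional calculus, or: `(1 + z)⁻¹ ≥ (1 + C)⁻¹` and everything commutes: `z^(1/2) ((1+z)⁻¹ - (1+C)⁻¹) z^(1/2) ≥ 0`).
-/

set_option autoImplicit false

open Filter Topology

namespace Pool.Agent.Helper84.TU

open GVN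

section CStar

variable {A : Type*} [CStarAlgebra A] [PartialOrder A] [StarOrderedRing A]

/-- `F a = a (1 + a)⁻¹` -/
private noncomputable def F (a : A) : A := cfc (fun x : ℝ => 1 - (1 + x)⁻¹) a

private theorem contF {a : A} (ha : 0 ≤ a) :
    ContinuousOn (fun x : ℝ => 1 - (1 + x)⁻¹) (spectrum ℝ a) := by
  refine continuousOn_const.sub (ContinuousOn.inv₀ (by fun_prop) fun x hx => ?_)
  have h := spectrum_nonneg_of_nonneg ha hx
  positivity

private theorem F_eq {a : A} (ha : 0 ≤ a) : F a = cfcₙ (fun x : ℝ => 1 - (1 + x)⁻¹) a := by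
  have h := contF ha
  have hq : ContinuousOn (fun x : ℝ => 1 - (1 + x)⁻¹) (quasispectrum ℝ a) := by
    refine continuousOn_const.sub (ContinuousOn.inv₀ (by fun_prop) fun x hx => ?_)
    have h := quasispectrum_nonneg_of_nonneg a ha x hx
    positivity
  exact (cfcₙ_eq_cfc (a := a) (hf := hq) (hf0 := by simp)).symm

private theorem F_mono {a b : A} (ha : 0 ≤ a) (hab : a ≤ b) : F a ≤ F b := by
  rw [F_eq ha, F_eq (ha.trans hab)]
  exact CFC.monotoneOn_one_sub_one_add_inv_real ha (ha.trans hab) hab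

private theorem F_nonneg {a : A} (ha : 0 ≤ a) : 0 ≤ F a := by
  refine cfc_nonneg fun x hx => ?_
  have h := spectrum_nonneg_of_nonneg ha hx
  have : (1 + x)⁻¹ ≤ 1 := inv_le_one_of_one_le₀ (by linarith)
  linarith

private theorem F_le_one {a : A} (ha : 0 ≤ a) : F a ≤ 1 := by
  refine cfc_le_one _ _ fun x hx => ?_
  have h := spectrum_nonneg_of_nonneg ha hx
  have : 0 ≤ (1 + x)⁻¹ := by positivity
  linarith

private theorem F_le {a : A} (ha : 0 ≤ a) : F a ≤ a := by
  have hs : IsSelfAdjoint a := IsSelfAdjoint.of_nonneg ha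
  conv_rhs => rw [← cfc_id ℝ a]
  refine cfc_mono (fun x hx => ?_) (contF ha) continuousOn_id
  have h := spectrum_nonneg_of_nonneg ha hx
  have h1 : (1 + x)⁻¹ * (1 + x) = 1 := inv_mul_cancel₀ (by positivity)
  have h2 : 0 ≤ (1 + x)⁻¹ := by positivity
  change 1 - (1 + x)⁻¹ ≤ x
  nlinarith

private theorem le_F {a : A} (ha : 0 ≤ a) {C : ℝ} (h : a ≤ algebraMap ℝ A C) :
    a ≤ ((1 + C : ℝ) : ℂ) • F a := by
  rw [Complex.coe_smul]
  have hs : IsSelfAdjoint a := IsSelfAdjoint.of_nonneg ha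
  unfold F
  rw [← cfc_const_mul (1 + C) (fun x : ℝ => 1 - (1 + x)⁻¹) a (contF ha)]
  conv_lhs => rw [← cfc_id ℝ a]
  refine cfc_mono (fun x hx => ?_) continuousOn_id (continuousOn_const.mul (contF ha))
  have h0 := spectrum_nonneg_of_nonneg ha hx
  have hC : x ≤ C := (le_algebraMap_iff_spectrum_le (r := C) (a := a)).1 h x hx
  change x ≤ (1 + C) * (1 - (1 + x)⁻¹)
  have h1 : (1 : ℝ) - (1 + x)⁻¹ = x / (1 + x) := by
    field_simp
    ring
  rw [h1, mul_div_assoc', le_div_iff₀ (by positivity)]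
  nlinarith

omit [PartialOrder A] [StarOrderedRing A] in
private theorem F_commute {a b : A} (h : Commute a b) : Commute (F a) b := h.cfc_real _

end CStar

variable {G : Type} [Group G]

private theorem le_iff' {x y : LG G} : Le x y ↔ op x ≤ op y := by
  rw [le_iff, ContinuousLinearMap.le_def]

/-- `Z (1 + Z)⁻¹` in `L(G)` -/
private noncomputable def FL (x : LG G) : LG G := ⟨F (op x), by
  change F (op x) ∈ groupVN G
  rw [mem_groupVN]
  intro S hS
  have h : S * op x = op x * S := mem_groupVN.1 x.2 S hS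
  exact (F_commute (show Commute (op x) S from h.symm)).symm⟩

private theorem op_FL (x : LG G) : op (FL x) = F (op x) := rfl

private theorem op_zero : op (0 : LG G) = 0 := rfl

private theorem op_one : op (1 : LG G) = 1 := rfl

private theorem op_add (x y : LG G) : op (x + y) = (op x + op y : L2 G →L[ℂ] L2 G) :=
  (groupVN G).toStarSubalgebra.coe_add x y

omit [Group G] in
private theorem smul_mono {x y : L2 G →L[ℂ] L2 G} (h : x ≤ y) {c : ℝ} (hc : 0 ≤ c) :
    (c : ℂ) • x ≤ (c : ℂ) • y := by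
  rw [ContinuousLinearMap.le_def] at h ⊢
  rw [← smul_sub]
  exact h.smul_of_nonneg (Complex.zero_le_real.2 hc)

private theorem tr_zero' : GVN.tr (0 : LG G) = 0 := by
  unfold GVN.tr GVN.coef
  change ((0 : L2 G →L[ℂ] L2 G) (dl 1)) 1 = 0
  rfl

private theorem tr_add' (x y : LG G) : GVN.tr (x + y) = GVN.tr x + GVN.tr y := by
  unfold GVN.tr GVN.coef
  change ((op (x + y)) (dl 1)) 1 = ((op x) (dl 1)) 1 + ((op y) (dl 1)) 1
  rw [op_add]
  rfl

theorem exists_dom {z : ℕ → LG G} {C : ℝ} (hC : 0 ≤ C) (h0 : ∀ n, Le 0 (z n))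
    (h1 : ∀ n, Le (z n) ((C : ℂ) • (1 : LG G))) (hs : Summable fun n => (GVN.tr (z n)).re) :
    ∃ A : ℕ → LG G, (∀ n, Le 0 (A n)) ∧ (∀ n, Le (A (n + 1)) (A n)) ∧
      (∀ n, Le (z n) (((1 + C : ℝ) : ℂ) • A n)) ∧ Tendsto (fun n => (GVN.tr (A n)).re) atTop (𝓝 0) := by
  classical
  have z0 : ∀ n, 0 ≤ op (z n) := fun n => by
    have h := le_iff'.1 (h0 n)
    rw [op_zero] at h
    exact h
  set Z : ℕ → ℕ → LG G := fun K N => ∑ n ∈ Finset.range N, z (K + n) with hZ
  have Z0 : ∀ K, Z K 0 = 0 := fun K => by simp [hZ]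
  have Zs : ∀ K N, Z K (N + 1) = Z K N + z (K + N) := fun K N => by
    simp [hZ, Finset.sum_range_succ]
  have Zs' : ∀ K N, Z K (N + 1) = Z (K + 1) N + z K := fun K N => by
    simp only [hZ]
    rw [Finset.sum_range_succ', add_zero]
    congr 1
    apply Finset.sum_congr rfl
    intro n _
    rw [show K + (n + 1) = K + 1 + n by omega]
  have Znn : ∀ K N, 0 ≤ op (Z K N) := by
    intro K N
    induction N with
    | zero => rw [Z0, op_zero]
    | succ N ih =>
      rw [Zs, op_add]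
      exact add_nonneg ih (z0 _)
  have Zm : ∀ K N, op (Z K N) ≤ op (Z K (N + 1)) := by
    intro K N
    rw [Zs, op_add]
    exact le_add_of_nonneg_right (z0 _)
  have Zm' : ∀ K N, op (Z (K + 1) N) ≤ op (Z K (N + 1)) := by
    intro K N
    rw [Zs', op_add]
    exact le_add_of_nonneg_right (z0 _)
  have A1 : ∀ K N, Le (FL (Z K N)) (FL (Z K (N + 1))) := fun K N => by
    rw [le_iff', op_FL, op_FL]
    exact F_mono (Znn K N) (Zm K N)
  have A2 : ∀ K N, Le (FL (Z (K + 1) N)) (FL (Z K (N + 1))) := fun K N => by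
    rw [le_iff', op_FL, op_FL]
    exact F_mono (Znn (K + 1) N) (Zm' K N)
  have A3 : ∀ K N, Le (FL (Z K N)) 1 := fun K N => by
    rw [le_iff', op_FL, op_one]
    exact F_le_one (Znn K N)
  have A4 : ∀ K N, Le (FL (Z K N)) (Z K N) := fun K N => by
    rw [le_iff', op_FL]
    exact F_le (Znn K N)
  have A5 : ∀ K N, Le 0 (FL (Z K N)) := fun K N => by
    rw [le_iff', op_FL, op_zero]
    exact F_nonneg (Znn K N)
  have key := fun K => exists_sup (x := fun N => FL (Z K N)) (b := 1) (A1 K) (A3 K)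
  choose A hA1 hA2 hA3 using key
  have hA0 : ∀ n, Le 0 (A n) := fun n => (A5 n 0).trans (hA1 n 0)
  refine ⟨A, hA0, fun n => hA2 (n + 1) (A n) fun N => (A2 n N).trans (hA1 n (N + 1)), ?_, ?_⟩
  · intro n
    have e : Z n 1 = z n := by rw [Zs', Z0, zero_add]
    have k1 : FL (z n) = FL (Z n 1) := by rw [e]
    have k2 : op (FL (z n)) ≤ op (A n) := by
      rw [k1]
      exact le_iff'.1 (hA1 n 1)
    have k3 : op (z n) ≤ algebraMap ℝ (L2 G →L[ℂ] L2 G) C := by
      have := le_iff'.1 (h1 n)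
      refine this.trans (le_of_eq ?_)
      ext f : 1
      rfl
    have k4 := le_F (z0 n) k3
    rw [op_FL] at k2
    rw [le_iff']
    have k5 : ((1 + C : ℝ) : ℂ) • F (op (z n)) ≤ ((1 + C : ℝ) : ℂ) • op (A n) :=
      smul_mono k2 (by linarith)
    exact k4.trans k5
  · have htr0 : GVN.tr (0 : LG G) = 0 := tr_zero'
    have htrz : ∀ n, 0 ≤ (GVN.tr (z n)).re := fun n => by
      have := (h0 n).tr
      rwa [htr0, Complex.zero_re] at this
    have htrZ : ∀ K N, (GVN.tr (Z K N)).re = ∑ n ∈ Finset.range N, (GVN.tr (z (n + K))).re := by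
      intro K N
      induction N with
      | zero => rw [Z0, htr0, Finset.sum_range_zero, Complex.zero_re]
      | succ N ih =>
        rw [Zs, Finset.sum_range_succ, ← ih, add_comm N K, tr_add', Complex.add_re]
    have hub : ∀ K, (GVN.tr (A K)).re ≤ ∑' n, (GVN.tr (z (n + K))).re := by
      intro K
      have hl : Tendsto (fun N => (GVN.tr (FL (Z K N))).re) atTop (𝓝 (GVN.tr (A K)).re) :=
        (Complex.continuous_re.tendsto _).comp (tendsto_tr (hA3 K))
      refine le_of_tendsto' hl fun N => ?_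
      refine ((A4 K N).tr).trans ?_
      rw [htrZ]
      exact Summable.sum_le_tsum _ (fun n _ => htrz (n + K))
        ((summable_nat_add_iff (f := fun n => (GVN.tr (z n)).re) K).2 hs)
    refine tendsto_of_tendsto_of_tendsto_of_le_of_le tendsto_const_nhds
      (tendsto_sum_nat_add fun n => (GVN.tr (z n)).re) (fun K => ?_) hub
    have := (hA0 K).tr
    rwa [htr0, Complex.zero_re] at this

end Pool.Agent.Helper84.TU
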