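import Pool.Agent.Helper84.TU.C
import Pool.Agent.Helper84.TU.D
import Pool.Agent.Helper84.GVN.Bridge

/-!
# Project TU, block TU5: isomorphisms preserve the trace

PROOF: the whole proof is in the header of `TU/Def.lean`. `φ y = GVN.tr (θ y)` is linear, `φ (u x u*) = φ x` for unitaries: trace property of `GVN.tr` on `L(Γ)`: `tr (a * b) = tr (b * a)` (`tr_star_mul` and `tracial`-type argument: `⟪a* δ, b δ⟫` with `a* δ = J a δ`; prove
`tr_comm` first: `tr (a b) = ∑_g coef a g coef b g⁻¹`: from `tr_star_mul`, `coef (star a) g = conj (coef a g⁻¹)` and Parseval). Cauchy-Schwarz: `|φ w|^2 = |⟪δ, θ(w) δ⟫|^2 ≤ ‖θ(w) δ‖^2 = tr (θ (w* w))`. `z_n ≤ C`: `‖z_n‖ ≤ (‖y_n‖ + |τ(x)|)^2 ≤ (2 ‖op x‖)^2`, via `le_iff`.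
-/

set_option autoImplicit false

open Filter Topology

namespace Pool.Agent.Helper84.TU

open GVN

variable {G Γ : Type} [Group G] [Group Γ]

private theorem op_rho_h12 (x : LG G) (k : G) (f : L2 G) : op x (rhoU k f) = rhoU k (op x f) := by
  have h1 := mem_groupVN.1 x.2 ((rhoU k).toContinuousLinearEquiv : L2 G →L[ℂ] L2 G) (by
    intro g
    ext f : 1
    exact (lam_rho g k f).symm)
  exact (DFunLike.congr_fun h1 f).symm

private theorem op_dl_h12 (x : LG G) (g : G) : op x (dl g) 1 = op x (dl 1) g⁻¹ := by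
  rw [commR_apply_dl (op_rho_h12 x) g 1, one_mul]

private theorem hasSum_tr_h12 (a b : LG G) :
    HasSum (fun g : G => op b (dl 1) g * op a (dl 1) g⁻¹) (GVN.tr (a * b)) := by
  have h1 := hasSum_clm (op a) (op b (dl 1)) (1 : G)
  have h2 : (fun g : G => op b (dl 1) g * op a (dl g) 1) =
      fun g : G => op b (dl 1) g * op a (dl 1) g⁻¹ := by
    funext g
    rw [op_dl_h12]
  rw [h2] at h1
  exact h1

theorem tr_comm (a b : LG G) : GVN.tr (a * b) = GVN.tr (b * a) := by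
  have h1 := hasSum_tr_h12 a b
  have h2 := (Equiv.hasSum_iff (Equiv.inv G)).2 (hasSum_tr_h12 b a)
  have h3 : ((fun g : G => op a (dl 1) g * op b (dl 1) g⁻¹) ∘ (Equiv.inv G)) =
      fun g : G => op b (dl 1) g * op a (dl 1) g⁻¹ := by
    funext g
    simp [mul_comm]
  rw [h3] at h2
  exact h1.unique h2

private theorem tr_inner_h12 (x : LG G) : GVN.tr x = inner ℂ (dl 1) (op x (dl 1)) := by
  rw [inner_dl_left]
  rfl

private theorem tr_add_h12 (x y : LG G) : GVN.tr (x + y) = GVN.tr x + GVN.tr y := by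
  rw [tr_inner_h12, tr_inner_h12, tr_inner_h12, ← inner_add_right]
  rfl

private theorem tr_smul_h12 (c : ℂ) (x : LG G) : GVN.tr (c • x) = c * GVN.tr x := by
  rw [tr_inner_h12, tr_inner_h12, ← inner_smul_right]
  rfl

private theorem tr_one_h12 : GVN.tr (1 : LG G) = 1 := by
  rw [tr_inner_h12]
  have h : op (1 : LG G) (dl 1) = dl 1 := rfl
  rw [h, inner_dl_left, dl_self]

private theorem tr_zero_h12 : GVN.tr (0 : LG G) = 0 := by
  rw [tr_inner_h12]
  have h : op (0 : LG G) (dl 1) = 0 := rfl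
  rw [h, inner_zero_right]

private theorem tr_star_self_h12 (w : LG G) :
    GVN.tr (star w * w) = ((‖op w (dl 1)‖ ^ 2 : ℝ) : ℂ) := by
  rw [tr_star_mul]
  have h := inner_self_eq_norm_sq_to_K (𝕜 := ℂ) (op w (dl 1))
  rw [Complex.ofReal_pow]
  exact h

private theorem norm_tr_h12 (w : LG G) : ‖GVN.tr w‖ ^ 2 ≤ (GVN.tr (star w * w)).re := by
  rw [tr_star_self_h12, Complex.ofReal_re]
  have h1 : ‖GVN.tr w‖ ≤ ‖op w (dl 1)‖ := by
    rw [tr_inner_h12]
    refine (norm_inner_le_norm _ _).trans ?_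
    rw [norm_dl, one_mul]
  exact pow_le_pow_left₀ (norm_nonneg _) h1 2

/-- The functional `tr ∘ θ`. -/
private noncomputable def phi_h12 (θ : LG G ≃⋆ₐ[ℂ] LG Γ) : LG G →ₗ[ℂ] ℂ where
  toFun y := GVN.tr (θ y)
  map_add' a b := by rw [map_add, tr_add_h12]
  map_smul' c a := by rw [map_smul, tr_smul_h12]; rfl

private theorem phi_apply_h12 (θ : LG G ≃⋆ₐ[ℂ] LG Γ) (y : LG G) :
    phi_h12 θ y = GVN.tr (θ y) := rfl

private theorem phi_uu_h12 (θ : LG G ≃⋆ₐ[ℂ] LG Γ) (x : LG G) (g : G) :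
    phi_h12 θ (uu g * x * star (uu g)) = phi_h12 θ x := by
  rw [phi_apply_h12, phi_apply_h12, map_mul, tr_comm, ← map_mul, ← mul_assoc, star_uu, ← uu_mul,
    inv_mul_cancel, uu_one, one_mul]

private theorem op_norm_add_h12 (y : LG G) (c : ℂ) : ‖op (y - c • (1 : LG G))‖ ≤ ‖op y‖ + ‖c‖ := by
  have h1 : op (y - c • (1 : LG G)) = op y - c • (1 : L2 G →L[ℂ] L2 G) := rfl
  rw [h1]
  refine (norm_sub_le _ _).trans ?_
  have h2 : ‖c • (1 : L2 G →L[ℂ] L2 G)‖ ≤ ‖c‖ := by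
    rw [norm_smul]
    refine mul_le_of_le_one_right (norm_nonneg _) ?_
    exact ContinuousLinearMap.norm_id_le
  linarith

private theorem le_const_h12 (w : LG G) {R : ℝ} (hw : ‖op w‖ ≤ R) :
    Le (star w * w) (((R ^ 2 : ℝ) : ℂ) • (1 : LG G)) := by
  rw [le_iff, ContinuousLinearMap.isPositive_iff_complex]
  intro f
  have h1 : (op ((((R ^ 2 : ℝ) : ℂ)) • (1 : LG G)) - op (star w * w)) f =
      (((R ^ 2 : ℝ) : ℂ)) • f - (star (op w)) (op w f) := rfl
  have h2 : inner ℂ ((star (op w)) (op w f)) f = ((‖op w f‖ ^ 2 : ℝ) : ℂ) := by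
    rw [ContinuousLinearMap.star_eq_adjoint, ContinuousLinearMap.adjoint_inner_left,
      inner_self_eq_norm_sq_to_K, Complex.ofReal_pow]
    rfl
  have h3 : inner ℂ ((((R ^ 2 : ℝ) : ℂ)) • f) f = ((R ^ 2 * ‖f‖ ^ 2 : ℝ) : ℂ) := by
    rw [inner_smul_left, inner_self_eq_norm_sq_to_K, Complex.conj_ofReal, Complex.ofReal_mul,
      Complex.ofReal_pow (‖f‖)]
    rfl
  have h4 : inner ℂ ((op ((((R ^ 2 : ℝ) : ℂ)) • (1 : LG G)) - op (star w * w)) f) f =
      ((R ^ 2 * ‖f‖ ^ 2 - ‖op w f‖ ^ 2 : ℝ) : ℂ) := by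
    rw [h1, inner_sub_left, h2, h3, Complex.ofReal_sub]
  rw [h4]
  refine ⟨rfl, ?_⟩
  have h5 : ‖op w f‖ ≤ R * ‖f‖ :=
    ((op w).le_opNorm f).trans (mul_le_mul_of_nonneg_right hw (norm_nonneg _))
  have h6 : ‖op w f‖ ^ 2 ≤ (R * ‖f‖) ^ 2 := pow_le_pow_left₀ (norm_nonneg _) h5 2
  rw [mul_pow] at h6
  show 0 ≤ R ^ 2 * ‖f‖ ^ 2 - ‖op w f‖ ^ 2
  linarith

private theorem map_back_h12 (θ : LG G ≃⋆ₐ[ℂ] LG Γ) {a : LG Γ} {b : LG G} (h : Le a (θ b)) :
    Le (θ.symm a) b := by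
  have h1 := h.map θ.symm
  rwa [StarAlgEquiv.symm_apply_apply] at h1

theorem tr_iso (hG : ∀ k : G, k ≠ 1 → (Set.range fun h : G => h * k * h⁻¹).Infinite)
    (θ : LG G ≃⋆ₐ[ℂ] LG Γ) (x : LG G) : GVN.tr (θ x) = GVN.tr x := by
  classical
  have hav : ∀ n : ℕ, ∃ y : LG G, ‖op y (dl 1) - GVN.tr x • (dl 1 : L2 G)‖ ≤ (1 / 2 : ℝ) ^ n ∧
      ‖op y‖ ≤ ‖op x‖ ∧ phi_h12 θ y = phi_h12 θ x := by
    intro n
    obtain ⟨y, hy1, hy2, hy3⟩ := exists_avg hG x (ε := (1 / 2 : ℝ) ^ n) (by positivity)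
    exact ⟨y, hy1, hy2, hy3 (phi_h12 θ) (phi_uu_h12 θ x)⟩
  choose y hy1 hy2 hy3 using hav
  set c : ℂ := GVN.tr x with hc
  set w : ℕ → LG G := fun n => y n - c • (1 : LG G) with hw
  set z : ℕ → LG G := fun n => star (w n) * w n with hz
  set R : ℝ := ‖op x‖ + ‖c‖ with hR
  have hR0 : 0 ≤ R := add_nonneg (norm_nonneg _) (norm_nonneg _)
  have h0 : ∀ n, Le 0 (z n) := fun n => ⟨w n, by rw [sub_zero]⟩
  have h1 : ∀ n, Le (z n) (((R ^ 2 : ℝ) : ℂ) • (1 : LG G)) := fun n =>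
    le_const_h12 (w n) ((op_norm_add_h12 (y n) c).trans (add_le_add_left (hy2 n) _))
  have htrz : ∀ n, (GVN.tr (z n)).re = ‖op (w n) (dl 1)‖ ^ 2 := fun n => by
    rw [hz]
    show (GVN.tr (star (w n) * w n)).re = _
    rw [tr_star_self_h12, Complex.ofReal_re]
  have hwd : ∀ n, op (w n) (dl 1) = op (y n) (dl 1) - c • (dl 1 : L2 G) := fun n => rfl
  have hs : Summable fun n => (GVN.tr (z n)).re := by
    refine Summable.of_nonneg_of_le (fun n => ?_) (fun n => ?_)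
      (summable_geometric_of_lt_one (r := (1 / 4 : ℝ)) (by norm_num) (by norm_num))
    · rw [htrz]
      positivity
    · rw [htrz, hwd]
      calc ‖op (y n) (dl 1) - c • (dl 1 : L2 G)‖ ^ 2 ≤ ((1 / 2 : ℝ) ^ n) ^ 2 :=
            pow_le_pow_left₀ (norm_nonneg _) (hy1 n) 2
        _ = (1 / 4 : ℝ) ^ n := by
            rw [← pow_mul, mul_comm n 2, pow_mul]
            norm_num
  obtain ⟨A, hA0, hA1, hA2, hA3⟩ := exists_dom (C := R ^ 2) (by positivity) h0 h1 hs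
  -- the decreasing sequence in `L(Γ)`
  obtain ⟨B, hB1, hB2, hB3⟩ := exists_inf (x := fun n => θ (A n)) (b := 0)
    (fun n => (hA1 n).map θ) (fun n => by
      have h := (hA0 n).map θ
      rwa [map_zero] at h)
  have hB0 : Le 0 B := hB2 0 (fun n => by
      have h := (hA0 n).map θ
      rwa [map_zero] at h)
  have hB' : θ.symm B = 0 := by
    have e1 : Le 0 (θ.symm B) := by
      have h := hB0.map θ.symm
      rwa [map_zero] at h
    have e2 : ∀ n, (GVN.tr (θ.symm B)).re ≤ (GVN.tr (A n)).re := fun n =>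
      (map_back_h12 θ (hB1 n)).tr
    have e3 : (GVN.tr (θ.symm B)).re ≤ 0 := ge_of_tendsto' hA3 e2
    obtain ⟨v, hv⟩ := e1
    rw [sub_zero] at hv
    have e4 : GVN.tr (star v * v) = 0 := by
      rw [hv, tr_star_self_h12, Complex.ofReal_re] at e3
      rw [tr_star_self_h12]
      have e5 : ‖op v (dl 1)‖ ^ 2 = 0 := le_antisymm e3 (by positivity)
      rw [e5, Complex.ofReal_zero]
    rw [hv, faithful e4, mul_zero]
  have hBz : B = 0 := by
    have h := congrArg θ hB'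
    rwa [StarAlgEquiv.apply_symm_apply, map_zero] at h
  have hlim : Tendsto (fun n => (GVN.tr (θ (A n))).re) atTop (𝓝 0) := by
    have h := tendsto_tr hB3
    rw [hBz, tr_zero_h12] at h
    have h' := (Complex.continuous_re.tendsto 0).comp h
    exact h'
  -- the difference
  have hphi : ∀ n, GVN.tr (θ (w n)) = GVN.tr (θ x) - c := by
    intro n
    have e1 : phi_h12 θ (w n) = phi_h12 θ (y n) - c * phi_h12 θ 1 := by
      show phi_h12 θ (y n - c • (1 : LG G)) = _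
      rw [map_sub, map_smul, smul_eq_mul]
    rw [hy3, phi_apply_h12, phi_apply_h12, phi_apply_h12, map_one, tr_one_h12, mul_one] at e1
    exact e1
  have hb : ∀ n, ‖GVN.tr (θ x) - c‖ ^ 2 ≤ (1 + R ^ 2) * (GVN.tr (θ (A n))).re := by
    intro n
    rw [← hphi n]
    refine (norm_tr_h12 (θ (w n))).trans ?_
    have e1 : star (θ (w n)) * θ (w n) = θ (z n) := by
      show _ = θ (star (w n) * w n)
      rw [map_mul, theta_star]
    rw [e1]
    have e2 := ((hA2 n).map θ).tr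
    rw [map_smul, tr_smul_h12, Complex.re_ofReal_mul] at e2
    exact e2
  have hlim2 : Tendsto (fun n => (1 + R ^ 2) * (GVN.tr (θ (A n))).re) atTop (𝓝 0) := by
    have h := hlim.const_mul (1 + R ^ 2)
    rwa [mul_zero] at h
  have hfin : ‖GVN.tr (θ x) - c‖ ^ 2 ≤ 0 := ge_of_tendsto' hlim2 hb
  have h2 : ‖GVN.tr (θ x) - c‖ = 0 := by
    have := le_antisymm hfin (sq_nonneg _)
    exact pow_eq_zero_iff (two_ne_zero) |>.1 this
  exact sub_eq_zero.1 (norm_eq_zero.1 h2)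

end Pool.Agent.Helper84.TU
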