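import Pool.Agent.Helper84.GVN.Final

/-!
# Project TU (part of RK, MP_0f6f3f_an): isomorphisms of group von Neumann algebras preserve the trace (definitions)

`Le x y` in `L(G)`: `y - x = z* z` for some `z ∈ L(G)`.

WHOLE PROOF. Let `G` be icc, `θ : L(G) → L(Γ)` a star isomorphism, `φ = τ_Γ ∘ θ`, `x ∈ L(G)`. (TU3) There are `y_n` in the convex hull of `{u_g x u_g*}` with `‖y_n δ - τ(x) δ‖^2 ≤ 4^(-n)`, so `φ(y_n) = φ(x)`, `‖y_n‖ ≤ ‖x‖`.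
`z_n = (y_n - τ(x))* (y_n - τ(x))`, `τ(z_n) ≤ 4^(-n)`, `z_n ≤ C`, `|φ(x) - τ(x)|^2 = |φ(y_n - τ(x))|^2 ≤ φ(z_n)`. (TU4) There are `A_K`, decreasing, `z_K ≤ (1 + C) A_K`, `τ(A_K) → 0`. `θ(A_K)` is decreasing with strong limit `B ≥ 0` (TU2);
`θ⁻¹(B) ≤ A_K` for all `K`, so `τ(θ⁻¹(B)) = 0`, `B = 0`, `φ(A_K) = τ_Γ(θ(A_K)) → τ_Γ(B) = 0`, and `|φ(x) - τ(x)|^2 ≤ φ(z_K) ≤ (1 + C) φ(A_K) → 0`.
-/

set_option autoImplicit false

namespace Pool.Agent.Helper84.TU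

open GVN

variable {G : Type} [Group G]

/-- The order of `L(G)`. -/
def Le (x y : LG G) : Prop := ∃ z : LG G, y - x = star z * z

/-- The operator of an element. -/
def op (x : LG G) : L2 G →L[ℂ] L2 G := x

theorem Le.map {Γ : Type} [Group Γ] (θ : LG G ≃⋆ₐ[ℂ] LG Γ) {x y : LG G} (h : Le x y) :
    Le (θ x) (θ y) := by
  obtain ⟨z, hz⟩ := h
  exact ⟨θ z, by rw [← map_sub, hz, map_mul, map_star]⟩

end Pool.Agent.Helper84.TU
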