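import Mathlib
import Pool.Agent.Helper84.TU.Def

/-!
# Project TU, block TU1: the order of `L(G)` is the order of operators

PROOFS. `le_iff`: forward: `⟪f, z* z f⟫ = ‖z f‖^2`. Backward: the positive operator `T = op y - op x` has a positive square root `r = CFC.sqrt T` (or `cfc`), `r r = T`, `star r = r`, and `r` commutes with every operator commuting with `T`
(`Commute.cfc` / `Commute.cfc_real`; `T` is selfadjoint). If `S` commutes with all `lamU g` then `S` commutes with every element of `L(G)` (`mem_groupVN`), in particular with `T`, so with `r`: `r ∈ groupVN G` (`mem_groupVN`).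
`faithful`: `‖z δ‖^2 = tr (z* z)` (`tr_star_mul`); `z` commutes with the right translations (`mem_groupVN` with `S = rhoU k`, `lam_rho`), so `z (dl g) = 0` for all `g` and `z = 0` (`clm_ext` or similar in `NI/E1.lean`, `hasSum_clm` in `GVN/Group.lean`).
`Le_trans`, `Le_refl`: via `le_iff`.
-/

set_option autoImplicit false

namespace Pool.Agent.Helper84.TU

open GVN

variable {G : Type} [Group G]

private theorem exists_sqrt {H : Type} [NormedAddCommGroup H] [InnerProductSpace ℂ H]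
    [CompleteSpace H] (T : H →L[ℂ] H) (h : T.IsPositive) :
    ∃ r : H →L[ℂ] H, star r = r ∧ r * r = T ∧ ∀ S : H →L[ℂ] H, S * T = T * S → S * r = r * S := by
  have h0 : (0 : H →L[ℂ] H) ≤ T := (ContinuousLinearMap.nonneg_iff_isPositive _).mpr h
  refine ⟨CFC.sqrt T, (CFC.sqrt_nonneg T).isSelfAdjoint, CFC.sqrt_mul_sqrt_self T h0, ?_⟩
  intro S hS
  have hc : Commute T S := hS.symm
  have hc2 : Commute (CFC.sqrt T) S := hc.cfcₙ_nnreal NNReal.sqrt
  exact hc2.symm

private theorem op_sub (x y : LG G) : op (y - x) = op y - op x := rfl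

private theorem op_star_mul (z : LG G) : op (star z * z) = star (op z) * op z := rfl

private theorem tr_sub (x y : LG G) : GVN.tr (y - x) = GVN.tr y - GVN.tr x := by
  unfold GVN.tr coef
  change (op (y - x) (dl 1)) 1 = (op y (dl 1)) 1 - (op x (dl 1)) 1
  rw [op_sub]
  rfl

theorem le_iff {x y : LG G} : Le x y ↔ (op y - op x).IsPositive := by
  constructor
  · rintro ⟨z, hz⟩
    rw [← op_sub, hz, op_star_mul]
    exact ContinuousLinearMap.isPositive_adjoint_comp_self (op z)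
  · intro h
    obtain ⟨r, hs, hr, hc⟩ := exists_sqrt _ h
    have hmem : r ∈ groupVN G := by
      rw [mem_groupVN]
      intro S hS
      exact hc S (mem_groupVN.1 (y - x).2 S hS)
    refine ⟨⟨r, hmem⟩, ?_⟩
    apply Subtype.ext
    change op y - op x = star r * r
    rw [hs, hr]

theorem Le.refl (x : LG G) : Le x x := by
  rw [le_iff, sub_self]
  exact ContinuousLinearMap.isPositive_zero

theorem Le.trans {x y z : LG G} (h : Le x y) (h' : Le y z) : Le x z := by
  rw [le_iff] at h h' ⊢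
  have h1 := h'.add h
  rwa [sub_add_sub_cancel] at h1

theorem Le.tr {x y : LG G} (h : Le x y) : (GVN.tr x).re ≤ (GVN.tr y).re := by
  obtain ⟨z, hz⟩ := h
  have h1 : GVN.tr y - GVN.tr x = GVN.tr (star z * z) := by
    rw [← tr_sub, hz]
  rw [tr_star_mul, inner_self_eq_norm_sq_to_K] at h1
  have h2 := congrArg Complex.re h1
  rw [Complex.sub_re] at h2
  have h3 : (((‖(z : L2 G →L[ℂ] L2 G) (dl 1)‖ : ℝ) : ℂ) ^ 2).re =
      ‖(z : L2 G →L[ℂ] L2 G) (dl 1)‖ ^ 2 := by
    rw [← Complex.ofReal_pow, Complex.ofReal_re]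
  have h4 : (GVN.tr y).re - (GVN.tr x).re = ‖(z : L2 G →L[ℂ] L2 G) (dl 1)‖ ^ 2 := h2.trans h3
  have h5 : 0 ≤ ‖(z : L2 G →L[ℂ] L2 G) (dl 1)‖ ^ 2 := by positivity
  linarith

theorem faithful {z : LG G} (h : GVN.tr (star z * z) = 0) : z = 0 := by
  rw [tr_star_mul, inner_self_eq_zero] at h
  apply Subtype.ext
  change (z : L2 G →L[ℂ] L2 G) = 0
  refine clm_ext fun g => ?_
  have h1 := mem_groupVN.1 z.2 ((rhoU g⁻¹ : L2 G ≃ₗᵢ[ℂ] L2 G).toContinuousLinearEquiv :
    L2 G →L[ℂ] L2 G) (by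
      intro k
      ext f : 1
      exact (lam_rho k g⁻¹ f).symm)
  have h2 := congrArg (fun T : L2 G →L[ℂ] L2 G => T (dl 1)) h1
  have h3 : (rhoU g⁻¹ : L2 G ≃ₗᵢ[ℂ] L2 G) ((z : L2 G →L[ℂ] L2 G) (dl 1)) =
      (z : L2 G →L[ℂ] L2 G) ((rhoU g⁻¹ : L2 G ≃ₗᵢ[ℂ] L2 G) (dl 1)) := h2
  rw [h, map_zero, rhoU_dl, one_mul, inv_inv] at h3
  rw [← h3]
  rfl

end Pool.Agent.Helper84.TU
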