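import Pool.Agent.Helper84.TU.A

/-!
# Project TU, block TU2: bounded monotone sequences in `L(G)` converge

PROOF of `exists_sup`. `T n = op (x n)`: the differences `D = T n - T m` (`m ≤ n`) are positive and bounded by `op b - op (x 0)`, so `‖D‖ ≤ M` and `‖D f‖^2 ≤ ‖D‖ ⟪D f, f⟫` (Cauchy-Schwarz for the form of `D`:
`ContinuousLinearMap.IsPositive...` or `‖D f‖^2 = ⟪D f, D f⟫`, with the square root: `D = r r`, `‖D f‖ ≤ ‖r‖ ‖r f‖`, `‖r f‖^2 = ⟪D f, f⟫`, `‖r‖^2 = ‖D‖`). `⟪T n f, f⟫` is increasing and bounded, so Cauchy, so `T n f` is Cauchy. The pointwise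
limit `s` is a bounded operator (`continuousLinearMapOfTendsto`), it commutes with every operator commuting with all `T n`, so it is in `groupVN G` (`mem_groupVN`). Order properties: limits of `⟪T n f, f⟫`, `le_iff`.
`exists_inf`: apply `exists_sup` to `-x n`.
-/

set_option autoImplicit false

open Filter Topology

namespace Pool.Agent.Helper84.TU

open GVN

variable {G : Type} [Group G]

section Hilbert

variable {H : Type*} [NormedAddCommGroup H] [InnerProductSpace ℂ H] [CompleteSpace H]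

theorem norm_sq_le_of_pos {D C : H →L[ℂ] H} (hD : D.IsPositive) (hC : (C - D).IsPositive) (f : H) :
    ‖D f‖ ^ 2 ≤ ‖C‖ * (inner ℂ (D f) f : ℂ).re := by
  have h0 : 0 ≤ D := (ContinuousLinearMap.nonneg_iff_isPositive D).2 hD
  have h1 : D ≤ C := (ContinuousLinearMap.le_def D C).2 hC
  have h2 : ‖D‖ ≤ ‖C‖ := CStarAlgebra.norm_le_norm_of_nonneg_of_le h0 h1
  have h3 : CFC.sqrt D * CFC.sqrt D = D := CFC.sqrt_mul_sqrt_self D h0
  have h4 : IsSelfAdjoint (CFC.sqrt D) := (CFC.sqrt_nonneg D).isSelfAdjoint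
  set r := CFC.sqrt D with hr
  have h5 : ∀ g, D g = r (r g) := fun g => by
    conv_lhs => rw [← h3]
    rfl
  have h6 : ‖r‖ * ‖r‖ = ‖D‖ := by
    have h7 := CStarRing.norm_star_mul_self (x := r)
    rw [h4.star_eq, h3] at h7
    exact h7.symm
  have h8 : (inner ℂ (D f) f : ℂ).re = ‖r f‖ ^ 2 := by
    have h9 : (inner ℂ (D f) f : ℂ) = inner ℂ (r f) (r f) := by
      rw [h5, ← ContinuousLinearMap.adjoint_inner_right, ← ContinuousLinearMap.star_eq_adjoint,
        h4.star_eq]
    rw [h9]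
    exact (norm_sq_eq_re_inner (𝕜 := ℂ) (r f)).symm
  rw [h8, h5]
  have h10 : ‖r (r f)‖ ≤ ‖r‖ * ‖r f‖ := r.le_opNorm _
  calc ‖r (r f)‖ ^ 2 ≤ (‖r‖ * ‖r f‖) ^ 2 := by gcongr
    _ = (‖r‖ * ‖r‖) * ‖r f‖ ^ 2 := by ring
    _ = ‖D‖ * ‖r f‖ ^ 2 := by rw [h6]
    _ ≤ ‖C‖ * ‖r f‖ ^ 2 := by gcongr

theorem posSet_closed : IsClosed {z : ℂ | ((z.re : ℝ) : ℂ) = z ∧ 0 ≤ z.re} := by
  apply IsClosed.inter
  · exact isClosed_eq (Complex.continuous_ofReal.comp Complex.continuous_re) continuous_id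
  · exact isClosed_le continuous_const Complex.continuous_re

theorem isPositive_of_tendsto {D : ℕ → H →L[ℂ] H} {E : H →L[ℂ] H}
    (hD : ∀ᶠ n in atTop, (D n).IsPositive) (h : ∀ f, Tendsto (fun n => D n f) atTop (𝓝 (E f))) :
    E.IsPositive := by
  rw [ContinuousLinearMap.isPositive_iff_complex]
  intro f
  have h1 : Tendsto (fun n => (inner ℂ (D n f) f : ℂ)) atTop (𝓝 (inner ℂ (E f) f)) :=
    (h f).inner tendsto_const_nhds
  refine posSet_closed.mem_of_tendsto h1 ?_
  filter_upwards [hD] with n hn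
  exact (ContinuousLinearMap.isPositive_iff_complex (D n)).1 hn f

theorem exists_limit {T : ℕ → H →L[ℂ] H} {B : H →L[ℂ] H}
    (h : ∀ n, (T (n + 1) - T n).IsPositive) (hB : ∀ n, (B - T n).IsPositive) :
    ∃ S : H →L[ℂ] H, ∀ f, Tendsto (fun n => T n f) atTop (𝓝 (S f)) := by
  have hmn : ∀ m n, m ≤ n → (T n - T m).IsPositive := by
    intro m n hmn
    induction n, hmn using Nat.le_induction with
    | base => rw [sub_self]; exact ContinuousLinearMap.isPositive_zero
    | succ n _ ih =>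
      have := (h n).add ih
      rwa [sub_add_sub_cancel] at this
  have hC : ∀ m n, m ≤ n → ((B - T 0) - (T n - T m)).IsPositive := by
    intro m n _
    have := (hB n).add (hmn 0 m (Nat.zero_le m))
    have e : B - T n + (T m - T 0) = (B - T 0) - (T n - T m) := by abel
    rwa [e] at this
  have hcau : ∀ f, CauchySeq (fun n => T n f) := by
    intro f
    set a : ℕ → ℝ := fun n => (inner ℂ (T n f) f : ℂ).re with ha
    have hsub : ∀ m n, a n - a m = (inner ℂ ((T n - T m) f) f : ℂ).re := by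
      intro m n
      rw [_root_.sub_apply, inner_sub_left, Complex.sub_re]
    have hmono : Monotone a := by
      apply monotone_nat_of_le_succ
      intro n
      have h1 := ((ContinuousLinearMap.isPositive_iff_complex _).1 (h n) f).2
      have h2 := hsub n (n + 1)
      have h3 : (0 : ℝ) ≤ (inner ℂ ((T (n + 1) - T n) f) f : ℂ).re := h1
      linarith
    have hbdd : BddAbove (Set.range a) := by
      refine ⟨(inner ℂ (B f) f : ℂ).re, ?_⟩
      rintro _ ⟨n, rfl⟩
      have h1 := ((ContinuousLinearMap.isPositive_iff_complex _).1 (hB n) f).2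
      have h3 : (0 : ℝ) ≤ (inner ℂ ((B - T n) f) f : ℂ).re := h1
      rw [_root_.sub_apply, inner_sub_left, Complex.sub_re] at h3
      exact sub_nonneg.1 h3
    have hlim := tendsto_atTop_ciSup hmono hbdd
    have hac : CauchySeq a := hlim.cauchySeq
    rw [Metric.cauchySeq_iff'] at hac ⊢
    intro ε hε
    set M := ‖B - T 0‖ + 1 with hM
    have hMpos : 0 < M := by positivity
    obtain ⟨N, hN⟩ := hac (ε ^ 2 / M) (by positivity)
    refine ⟨N, fun n hn => ?_⟩
    have h1 := norm_sq_le_of_pos (hmn N n hn) (hC N n hn) f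
    rw [← hsub, _root_.sub_apply] at h1
    have h2 := hN n hn
    rw [Real.dist_eq, lt_div_iff₀ hMpos] at h2
    have h3 : a n - a N ≤ |a n - a N| := le_abs_self _
    have h4 : ‖T n f - T N f‖ ^ 2 < ε ^ 2 := by
      calc ‖T n f - T N f‖ ^ 2 ≤ ‖B - T 0‖ * (a n - a N) := h1
        _ ≤ ‖B - T 0‖ * |a n - a N| := by gcongr
        _ ≤ M * |a n - a N| := by
            apply mul_le_mul_of_nonneg_right _ (abs_nonneg _)
            rw [hM]; linarith
        _ = |a n - a N| * M := mul_comm _ _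
        _ < ε ^ 2 := h2
    rw [dist_eq_norm]
    exact lt_of_pow_lt_pow_left₀ 2 hε.le h4
  choose L hL using fun f => cauchySeq_tendsto_of_complete (hcau f)
  exact ⟨continuousLinearMapOfTendsto (fun n => T n) (tendsto_pi_nhds.2 hL), hL⟩

end Hilbert

theorem op_neg (x : LG G) : op (-x) = - op x := rfl

theorem Le.neg {x y : LG G} (h : Le x y) : Le (-y) (-x) := by
  obtain ⟨z, hz⟩ := h
  exact ⟨z, by rw [← hz]; abel⟩

theorem exists_sup {x : ℕ → LG G} {b : LG G} (h : ∀ n, Le (x n) (x (n + 1))) (hb : ∀ n, Le (x n) b) :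
    ∃ s : LG G, (∀ n, Le (x n) s) ∧ (∀ b', (∀ n, Le (x n) b') → Le s b') ∧
      ∀ f, Tendsto (fun n => op (x n) f) atTop (𝓝 (op s f)) := by
  obtain ⟨S, hS⟩ := exists_limit (T := fun n => op (x n)) (B := op b)
    (fun n => le_iff.1 (h n)) (fun n => le_iff.1 (hb n))
  have hmem : S ∈ groupVN G := by
    rw [mem_groupVN]
    intro R hR
    ext f : 1
    have h1 : Tendsto (fun n => R (op (x n) f)) atTop (𝓝 (R (S f))) :=
      (R.continuous.tendsto _).comp (hS f)
    have h2 : Tendsto (fun n => op (x n) (R f)) atTop (𝓝 (S (R f))) := hS (R f)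
    have h3 : (fun n => R (op (x n) f)) = fun n => op (x n) (R f) := by
      funext n
      have := mem_groupVN.1 (x n).2 R hR
      exact DFunLike.congr_fun this f
    rw [h3] at h1
    exact tendsto_nhds_unique h1 h2
  have hle : ∀ m n, m ≤ n → Le (x m) (x n) := by
    intro m n hmn
    induction n, hmn using Nat.le_induction with
    | base => exact Le.refl _
    | succ n _ ih => exact ih.trans (h n)
  refine ⟨⟨S, hmem⟩, fun n => ?_, fun b' hb' => ?_, hS⟩
  · rw [le_iff]
    refine isPositive_of_tendsto (D := fun m => op (x m) - op (x n)) ?_ (fun f => ?_)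
    · filter_upwards [eventually_ge_atTop n] with m hm
      exact le_iff.1 (hle n m hm)
    · exact (hS f).sub_const _
  · rw [le_iff]
    refine isPositive_of_tendsto (D := fun m => op b' - op (x m)) ?_ (fun f => ?_)
    · exact Eventually.of_forall fun m => le_iff.1 (hb' m)
    · exact (hS f).const_sub _

theorem exists_inf {x : ℕ → LG G} {b : LG G} (h : ∀ n, Le (x (n + 1)) (x n)) (hb : ∀ n, Le b (x n)) :
    ∃ s : LG G, (∀ n, Le s (x n)) ∧ (∀ b', (∀ n, Le b' (x n)) → Le b' s) ∧
      ∀ f, Tendsto (fun n => op (x n) f) atTop (𝓝 (op s f)) := by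
  obtain ⟨s, h1, h2, h3⟩ := exists_sup (x := fun n => -x n) (b := -b) (fun n => (h n).neg)
    (fun n => (hb n).neg)
  refine ⟨-s, fun n => ?_, fun b' hb' => ?_, fun f => ?_⟩
  · have := (h1 n).neg
    rwa [neg_neg] at this
  · have := (h2 (-b') (fun n => (hb' n).neg)).neg
    rwa [neg_neg] at this
  · have h4 : Tendsto (fun n => -(op (x n) f)) atTop (𝓝 (op s f)) := h3 f
    have h5 := h4.neg
    simp only [neg_neg] at h5
    exact h5

theorem tendsto_tr {x : ℕ → LG G} {s : LG G} (h : ∀ f, Tendsto (fun n => op (x n) f) atTop (𝓝 (op s f))) :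
    Tendsto (fun n => GVN.tr (x n)) atTop (𝓝 (GVN.tr s)) := by
  have h1 : ∀ y : LG G, GVN.tr y = inner ℂ (dl 1) (op y (dl 1)) := fun y =>
    (inner_dl_left 1 (op y (dl 1))).symm
  simp only [h1]
  exact tendsto_const_nhds.inner (h (dl 1))

end Pool.Agent.Helper84.TU
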