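import Pool.Agent.Helper84.TU.Def
import Pool.Agent.Helper84.GVN.Factor

/-!
# Project TU, block TU3: averaging in `L(G)`, `G` icc

PROOF. `W g = lamU g ∘ rhoU g` (isometries of `ℓ²(G)`, `W (g h) = W g ∘ W h`); `op (uu g * x * star (uu g)) (dl 1) = W g (op x (dl 1))` (`star_uu`, `op x` commutes with right translations). Let `K` be the closed convex hull of `{W g (op x δ)}`, `v` its
element of minimal norm (`exists_norm_eq_iInf_of_complete_convex`; unique: parallelogram law; see `hu_fix` in `NI/HU.lean`): `W g v = v` for all `g`. So `v (g⁻¹ k g) = v k`, and `v k = 0` for `k ≠ 1` as the conjugacy class is infinite and `v` is square summable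
(compare `GVN/Factor.lean`). `v 1 = ⟪δ, v⟫`: for every element `w` of the convex hull `w 1 = tr x`, so `v = tr x • δ`. Hence there is a finite convex combination `∑ c_i W g_i (op x δ)` at distance `≤ ε` from `tr x • δ`; `y = ∑ c_i • (uu g_i * x * star (uu g_i))`.
-/

set_option autoImplicit false

namespace Pool.Agent.Helper84.TU

open GVN

/-- Contractions preserving a closed convex set of a Hilbert space fix its point of least norm. -/
theorem avg_fix {F : Type} [NormedAddCommGroup F] [InnerProductSpace ℂ F] [CompleteSpace F]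
    {ι : Type} (T : ι → F →L[ℂ] F) (S : Set F) (hne : S.Nonempty)
    (hconv : ∀ x ∈ S, ∀ y ∈ S, ∀ a b : ℝ, 0 ≤ a → 0 ≤ b → a + b = 1 →
      (a : ℂ) • x + (b : ℂ) • y ∈ S) (hT : ∀ i, ∀ x ∈ S, T i x ∈ S)
    (hn : ∀ i x, ‖T i x‖ ≤ ‖x‖) :
    ∃ η ∈ closure S, ∀ i, T i η = η := by
  let _ : InnerProductSpace ℝ F := InnerProductSpace.complexToReal
  have hS : Convex ℝ S := by
    intro x hx y hy a b ha hb hab
    exact hconv x hx y hy a b ha hb hab
  have hC : Convex ℝ (closure S) := hS.closure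
  obtain ⟨η, hη, hmin⟩ :=
    exists_norm_eq_iInf_of_complete_convex hne.closure isClosed_closure.isComplete hC 0
  have hle : ∀ w ∈ closure S, ‖η‖ ≤ ‖w‖ := by
    intro w hw
    have h1 : (⨅ w : closure S, ‖(0 : F) - w‖) ≤ ‖(0 : F) - (⟨w, hw⟩ : closure S)‖ :=
      ciInf_le ⟨0, Set.forall_mem_range.2 fun _ => norm_nonneg _⟩ (⟨w, hw⟩ : closure S)
    rw [← hmin, zero_sub, zero_sub, norm_neg, norm_neg] at h1
    exact h1
  refine ⟨η, hη, fun i => ?_⟩
  have hw : T i η ∈ closure S := map_mem_closure (T i).continuous hη (hT i)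
  have h1 : ‖T i η‖ = ‖η‖ := le_antisymm (hn i η) (hle _ hw)
  generalize T i η = w at hw h1
  have h2 := hle _ (hC hw hη (a := 1 / 2) (b := 1 / 2) (by norm_num) (by norm_num)
    (by norm_num))
  have h3 : ‖(1 / 2 : ℝ) • w + (1 / 2 : ℝ) • η‖ = (1 / 2) * ‖w + η‖ := by
    rw [← smul_add, norm_smul, Real.norm_of_nonneg (by norm_num)]
  rw [h3] at h2
  have h4 := parallelogram_law_with_norm ℝ w η
  rw [h1] at h4
  have h5 : ‖w - η‖ ^ 2 ≤ 0 := by
    nlinarith [norm_nonneg η, norm_nonneg (w + η)]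
  have h6 : ‖w - η‖ = 0 := by
    have := le_antisymm h5 (by positivity)
    exact pow_eq_zero_iff two_ne_zero |>.1 this
  exact sub_eq_zero.1 (norm_eq_zero.1 h6)

variable {G : Type} [Group G]

/-- The convex hull of the conjugates of `x` by the canonical unitaries. -/
inductive Hull (x : LG G) : LG G → Prop
  | base (g : G) : Hull x (uu g * x * star (uu g))
  | comb (y z : LG G) (a b : ℝ) (ha : 0 ≤ a) (hb : 0 ≤ b) (hab : a + b = 1) (hy : Hull x y)
      (hz : Hull x z) : Hull x ((a : ℂ) • y + (b : ℂ) • z)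

theorem op_rhoU (x : LG G) (k : G) (f : L2 G) : op x (rhoU k f) = rhoU k (op x f) := by
  have h := (mem_groupVN.1 x.2) ((rhoU k).toContinuousLinearEquiv : L2 G →L[ℂ] L2 G)
    (fun g => by
      ext f : 1
      exact (lam_rho g k f).symm)
  have h2 := congrArg (fun T : L2 G →L[ℂ] L2 G => T f) h
  exact h2.symm

/-- Conjugation by the canonical unitary. -/
noncomputable def cW (g : G) : L2 G →L[ℂ] L2 G :=
  ((lamU g).toContinuousLinearEquiv : L2 G →L[ℂ] L2 G).comp
    ((rhoU g).toContinuousLinearEquiv : L2 G →L[ℂ] L2 G)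

theorem cW_eq (g : G) (f : L2 G) : cW g f = lamU g (rhoU g f) := rfl

theorem cW_apply (g : G) (f : L2 G) (k : G) : cW g f k = f (g⁻¹ * k * g) := by
  rw [cW_eq, lamU_apply, rhoU_apply]

theorem norm_cW (g : G) (f : L2 G) : ‖cW g f‖ = ‖f‖ := by
  rw [cW_eq, LinearIsometryEquiv.norm_map, LinearIsometryEquiv.norm_map]

theorem op_conj (g : G) (y : LG G) :
    op (uu g * y * star (uu g)) (dl 1) = cW g (op y (dl 1)) := by
  rw [star_uu]
  change lamU g (op y (lamU g⁻¹ (dl 1))) = _
  rw [lamU_dl, mul_one, cW_eq, ← op_rhoU, rhoU_dl, one_mul]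

theorem op_comb (a b : ℂ) (y z : LG G) (f : L2 G) :
    op (a • y + b • z) f = a • op y f + b • op z f := rfl

theorem Hull.norm_le {x y : LG G} (h : Hull x y) : ‖op y‖ ≤ ‖op x‖ := by
  induction h with
  | base g =>
    refine ContinuousLinearMap.opNorm_le_bound _ (norm_nonneg _) fun f => ?_
    rw [star_uu]
    change ‖lamU g (op x (lamU g⁻¹ f))‖ ≤ _
    rw [LinearIsometryEquiv.norm_map]
    refine (ContinuousLinearMap.le_opNorm _ _).trans_eq ?_
    rw [LinearIsometryEquiv.norm_map]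
  | comb y z a b ha hb hab _ _ ihy ihz =>
    refine ContinuousLinearMap.opNorm_le_bound _ (norm_nonneg _) fun f => ?_
    rw [op_comb]
    refine (norm_add_le _ _).trans ?_
    rw [norm_smul, norm_smul, Complex.norm_real, Complex.norm_real, Real.norm_of_nonneg ha,
      Real.norm_of_nonneg hb]
    have h1 := (ContinuousLinearMap.le_opNorm (op y) f).trans
      (mul_le_mul_of_nonneg_right ihy (norm_nonneg f))
    have h2 := (ContinuousLinearMap.le_opNorm (op z) f).trans
      (mul_le_mul_of_nonneg_right ihz (norm_nonneg f))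
    calc a * ‖op y f‖ + b * ‖op z f‖ ≤ a * (‖op x‖ * ‖f‖) + b * (‖op x‖ * ‖f‖) :=
          add_le_add (mul_le_mul_of_nonneg_left h1 ha) (mul_le_mul_of_nonneg_left h2 hb)
      _ = ‖op x‖ * ‖f‖ := by rw [← add_mul, hab, one_mul]

theorem Hull.phi {x y : LG G} (h : Hull x y) (φ : LG G →ₗ[ℂ] ℂ)
    (hφ : ∀ g, φ (uu g * x * star (uu g)) = φ x) : φ y = φ x := by
  induction h with
  | base g => exact hφ g
  | comb y z a b ha hb hab _ _ ihy ihz =>
    rw [map_add, map_smul, map_smul, ihy, ihz, ← add_smul, ← Complex.ofReal_add, hab,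
      Complex.ofReal_one, one_smul]

theorem Hull.conj {x y : LG G} (h : Hull x y) (g : G) : Hull x (uu g * y * star (uu g)) := by
  induction h with
  | base k =>
    have h1 : uu g * (uu k * x * star (uu k)) * star (uu g) =
        uu (g * k) * x * star (uu (g * k)) := by
      rw [uu_mul, star_mul]
      simp only [mul_assoc]
    rw [h1]
    exact Hull.base _
  | comb y z a b ha hb hab _ _ ihy ihz =>
    rw [mul_add, add_mul, mul_smul_comm, mul_smul_comm, smul_mul_assoc, smul_mul_assoc]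
    exact Hull.comb _ _ a b ha hb hab ihy ihz

theorem Hull.tr {x y : LG G} (h : Hull x y) : (op y (dl 1)) 1 = GVN.tr x := by
  induction h with
  | base g =>
    rw [op_conj, cW_apply, mul_one, inv_mul_cancel]
    rfl
  | comb y z a b ha hb hab _ _ ihy ihz =>
    rw [op_comb]
    change (a : ℂ) * (op y (dl 1)) 1 + (b : ℂ) * (op z (dl 1)) 1 = _
    rw [ihy, ihz, ← add_mul, ← Complex.ofReal_add, hab, Complex.ofReal_one, one_mul]

theorem exists_avg (hG : ∀ k : G, k ≠ 1 → (Set.range fun h : G => h * k * h⁻¹).Infinite) (x : LG G) {ε : ℝ}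
    (hε : 0 < ε) : ∃ y : LG G, ‖op y (dl 1) - GVN.tr x • (dl 1 : L2 G)‖ ≤ ε ∧ ‖op y‖ ≤ ‖op x‖ ∧
      ∀ φ : LG G →ₗ[ℂ] ℂ, (∀ g, φ (uu g * x * star (uu g)) = φ x) → φ y = φ x := by
  let S : Set (L2 G) := {w | ∃ y, Hull x y ∧ op y (dl 1) = w}
  obtain ⟨v, hv, hfix⟩ := avg_fix (fun g : G => cW g) S ⟨_, _, Hull.base 1, rfl⟩
    (by
      rintro _ ⟨y, hy, rfl⟩ _ ⟨z, hz, rfl⟩ a b ha hb hab
      exact ⟨_, Hull.comb y z a b ha hb hab hy hz, rfl⟩)
    (by
      rintro g _ ⟨y, hy, rfl⟩
      exact ⟨_, hy.conj g, op_conj g y⟩)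
    (fun g f => (norm_cW g f).le)
  have h1 : v 1 = GVN.tr x := by
    have hcl : IsClosed {w : L2 G | w 1 = GVN.tr x} := by
      have he : {w : L2 G | w 1 = GVN.tr x} = {w : L2 G | inner ℂ (dl 1) w = GVN.tr x} := by
        ext w
        rw [Set.mem_ofPred_eq, Set.mem_ofPred_eq, inner_dl_left]
      rw [he]
      exact isClosed_eq (continuous_const.inner continuous_id) continuous_const
    have hsub : S ⊆ {w : L2 G | w 1 = GVN.tr x} := by
      rintro _ ⟨y, hy, rfl⟩
      exact hy.tr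
    exact closure_minimal hsub hcl hv
  have h2 : ∀ k : G, k ≠ 1 → v k = 0 := by
    intro k hk
    by_contra hne
    have hpos : 0 < ‖v k‖ ^ 2 := by positivity
    have hfin : {j : G | ‖v k‖ ^ 2 ≤ ‖v j‖ ^ 2}.Finite := by
      have h3 := (summable_sq v).tendsto_cofinite_zero
      have h4 := h3.eventually (gt_mem_nhds hpos)
      rw [Filter.eventually_cofinite] at h4
      refine h4.subset fun j hj => ?_
      exact not_lt.2 hj
    refine hG k hk (hfin.subset ?_)
    rintro _ ⟨h, rfl⟩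
    have h5 := congrArg (fun f : L2 G => f (h * k * h⁻¹)) (hfix h)
    simp only [cW_apply] at h5
    have h6 : h⁻¹ * (h * k * h⁻¹) * h = k := by group
    rw [h6] at h5
    change ‖v k‖ ^ 2 ≤ ‖v (h * k * h⁻¹)‖ ^ 2
    rw [← h5]
  have h3 : v = GVN.tr x • (dl 1 : L2 G) := by
    apply l2_ext
    intro k
    change v k = GVN.tr x * (dl 1 : L2 G) k
    by_cases hk : k = 1
    · rw [hk, h1, dl_self, mul_one]
    · rw [h2 k hk, dl_apply, if_neg hk, mul_zero]
  obtain ⟨w, ⟨y, hy, rfl⟩, hd⟩ := Metric.mem_closure_iff.1 hv ε hε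
  refine ⟨y, ?_, hy.norm_le, fun φ hφ => hy.phi φ hφ⟩
  rw [← h3, ← dist_eq_norm, dist_comm]
  exact hd.le

end Pool.Agent.Helper84.TU
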